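import Pool.Agent.H.MP_3020f5_gt.Iso

namespace Pool.Agent.Results.MP_de432b_gt.Box
open Pool.Agent.H.MP_3020f5_gt

theorem result :
    ContractibleSpace {a : XX // a ≠ cls pt} :=
  gen_punct cls cls_surj dist_cls

end Pool.Agent.Results.MP_de432b_gt.Box
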