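import Pool.Agent.H.MP_de432b_gt.Main

namespace Pool.Agent.Results.MP_de432b_gt.Conc
open Pool.Agent.H.MP_3020f5_gt Pool.Agent.H.MP_de432b_gt

theorem result : ContractibleSpace {a : XC // a ≠ clsC pt} := punctC

end Pool.Agent.Results.MP_de432b_gt.Conc
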